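import Mathlib
import Pool.Agent.H397R2.Log

set_option autoImplicit false

namespace Pool.Agent.H72.Arc

open Filter Topology Pool.Agent.H397R2

/-- The Collatz map. -/
def T (n : ℕ) : ℕ := if n % 2 = 0 then n / 2 else 3 * n + 1

/-- The set of the positive integers that reach `1`. -/
def reach : Set ℕ := {n | 1 ≤ n ∧ ∃ j, T^[j] n = 1}

/-- The generating function `∑_{n ∈ S} zⁿ`. -/
noncomputable def gen (S : Set ℕ) (z : ℂ) : ℂ := ∑' n : ℕ, S.indicator (fun m => z ^ m) n

/-- The quadratic mean of the generating function over the arc of radius `r` and angles in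
`(α, β)`. -/
noncomputable def mean (S : Set ℕ) (α β r : ℝ) : ℝ :=
  ∫ θ : ℝ in α..β, ‖gen S ((r : ℂ) * Complex.exp ((θ : ℂ) * Complex.I))‖ ^ 2

/-- indicator -/
noncomputable def ic (S : Set ℕ) (n : ℕ) : ℂ := S.indicator (fun _ => 1) n

theorem ic_cases (S : Set ℕ) (n : ℕ) : ic S n = 0 ∨ ic S n = 1 := by
  classical
  unfold ic
  rw [Set.indicator_apply]
  split_ifs
  · exact Or.inr rfl
  · exact Or.inl rfl

theorem norm_ic (S : Set ℕ) (n : ℕ) : ‖ic S n‖ ≤ 1 := by
  rcases ic_cases S n with h | h <;> rw [h] <;> simp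

theorem gen_eq (S : Set ℕ) (z : ℂ) : gen S z = ∑' n, ic S n * z ^ n := by
  classical
  unfold gen ic
  congr 1
  ext n
  rw [Set.indicator_apply, Set.indicator_apply]
  split_ifs <;> simp

theorem summ (S : Set ℕ) {z : ℂ} (hz : ‖z‖ < 1) : Summable fun n => ic S n * z ^ n := by
  refine Summable.of_norm_bounded (g := fun n => ‖z‖ ^ n)
    (summable_geometric_of_lt_one (norm_nonneg _) hz) (fun n => ?_)
  rw [norm_mul, norm_pow]
  have := norm_ic S n
  have h0 : 0 ≤ ‖z‖ ^ n := by positivity
  nlinarith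

theorem diff_sum (S : Set ℕ) (h0 : 0 ∉ S) {z : ℂ} (hz : ‖z‖ < 1) (hz0 : z ≠ 0) :
    HasSum (fun n => (ic S (n + 1) - ic S n) * z ^ n) (gen S z * (1 - z) / z) := by
  have s1 : HasSum (fun n => ic S n * z ^ n) (gen S z) := by
    rw [gen_eq]; exact (summ S hz).hasSum
  have s2 : HasSum (fun n => ic S (n + 1) * z ^ (n + 1)) (gen S z) := by
    have := (hasSum_nat_add_iff' 1).mpr s1
    have h1 : ic S 0 = 0 := by
      unfold ic; exact Set.indicator_of_notMem h0 _
    simpa [h1] using this
  have s3 := (s2.mul_left z⁻¹).sub s1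
  have e : z⁻¹ * gen S z - gen S z = gen S z * (1 - z) / z := by
    field_simp
  rw [e] at s3
  refine hs_congr s3 (fun n => ?_)
  rw [pow_succ]
  field_simp

theorem summ_diff (S : Set ℕ) {r : ℝ} (hr0 : 0 ≤ r) (hr1 : r < 1) :
    Summable fun n => ‖ic S (n + 1) - ic S n‖ * r ^ n := by
  refine Summable.of_nonneg_of_le (fun n => by positivity) (fun n => ?_)
    ((summable_geometric_of_lt_one hr0 hr1).mul_left 2)
  refine mul_le_mul_of_nonneg_right ?_ (by positivity)
  refine (norm_sub_le _ _).trans ?_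
  have h1 := norm_ic S n
  have h2 := norm_ic S (n + 1)
  linarith

theorem cinv (S : Set ℕ) (h : ∀ n, 1 ≤ n → (T n ∈ S ↔ n ∈ S)) : CInv (ic S) where
  even n := by
    rcases Nat.eq_zero_or_pos n with rfl | hn
    · rfl
    · have h1 := h (2 * n) (by omega)
      have h2 : T (2 * n) = n := by
        unfold T; rw [if_pos (by omega)]; omega
      rw [h2] at h1
      classical
      unfold ic
      rw [Set.indicator_apply, Set.indicator_apply]
      simp only [h1]
  odd n := by
    have h1 := h (2 * n + 1) (by omega)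
    have h2 : T (2 * n + 1) = 6 * n + 4 := by
      unfold T; rw [if_neg (by omega)]; omega
    have h3 := h (6 * n + 4) (by omega)
    have h4 : T (6 * n + 4) = 3 * n + 2 := by
      unfold T; rw [if_pos (by omega)]; omega
    rw [h4] at h3
    rw [h2] at h1
    have h5 := h3.trans h1
    classical
    unfold ic
    rw [Set.indicator_apply, Set.indicator_apply]
    simp only [h5]

theorem cont_gen (S : Set ℕ) {r : ℝ} (hr0 : 0 ≤ r) (hr1 : r < 1) :
    Continuous fun θ : ℝ => gen S ((r : ℂ) * Complex.exp ((θ : ℂ) * Complex.I)) := by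
  have h1 : Summable fun n => ‖ic S n‖ * r ^ n := by
    refine Summable.of_nonneg_of_le (fun n => by positivity) (fun n => ?_)
      (summable_geometric_of_lt_one hr0 hr1)
    have := norm_ic S n
    have h0 : 0 ≤ r ^ n := by positivity
    nlinarith
  have h2 := continuous_ser hr0 h1
  have h3 : (fun θ : ℝ => gen S ((r : ℂ) * Complex.exp ((θ : ℂ) * Complex.I))) = ser (ic S) r := by
    ext θ
    rw [gen_eq]
    rfl
  rw [h3]
  exact h2

/-- The main step. -/
theorem const (S : Set ℕ) (h0 : 0 ∉ S) (h : ∀ n, 1 ≤ n → (T n ∈ S ↔ n ∈ S)) {α β C : ℝ}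
    (hαβ : α < β) (H : ∃ᶠ r : ℝ in 𝓝[<] (1 : ℝ), mean S α β r ≤ C * Real.log (1 / (1 - r))) :
    ∀ n, 1 ≤ n → ic S n = ic S 1 := by
  refine const_of_local_log (cinv S h) (C := 16 * C) ?_ hαβ
    (fun r hr0 hr1 => summ_diff S hr0 hr1) ?_
  · intro n hn
    rcases ic_cases S n with h1 | h1 <;> rcases ic_cases S (n + 1) with h2 | h2 <;>
      rw [h1, h2] at hn ⊢ <;> simp at hn ⊢
  · have h1 : ∀ᶠ r : ℝ in 𝓝[<] (1 : ℝ), 1 / 2 < r ∧ r < 1 := by
      apply Filter.Eventually.and
      · exact nhdsWithin_le_nhds (lt_mem_nhds (by norm_num))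
      · exact self_mem_nhdsWithin
    refine (H.and_eventually h1).mono ?_
    rintro r ⟨hr, hr0, hr1⟩
    have hr0' : 0 ≤ r := by linarith
    have hcpn : ∀ θ, ‖cp r θ‖ = r := norm_cp hr0'
    have hpt : ∀ θ, ‖ser (fun n => ic S (n + 1) - ic S n) r θ‖ ^ 2 ≤
        16 * ‖gen S ((r : ℂ) * Complex.exp ((θ : ℂ) * Complex.I))‖ ^ 2 := by
      intro θ
      have hne : cp r θ ≠ 0 := by
        intro h2
        have := hcpn θ
        rw [h2, norm_zero] at this
        linarith
      have h3 : ser (fun n => ic S (n + 1) - ic S n) r θ =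
          gen S (cp r θ) * (1 - cp r θ) / cp r θ :=
        (hasSum_ser hr0' (summ_diff S hr0' hr1) θ).unique
          (diff_sum S h0 (by rw [hcpn]; exact hr1) hne)
      rw [h3, norm_div, norm_mul, hcpn]
      have h4 : ‖1 - cp r θ‖ ≤ 2 := by
        refine (norm_sub_le _ _).trans ?_
        rw [norm_one, hcpn]; linarith
      have h5 : ‖gen S (cp r θ)‖ * ‖1 - cp r θ‖ / r ≤ 4 * ‖gen S (cp r θ)‖ := by
        rw [div_le_iff₀ (by linarith)]
        have h6 := norm_nonneg (gen S (cp r θ))
        nlinarith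
      have h7 : 0 ≤ ‖gen S (cp r θ)‖ * ‖1 - cp r θ‖ / r := by positivity
      calc (‖gen S (cp r θ)‖ * ‖1 - cp r θ‖ / r) ^ 2 ≤ (4 * ‖gen S (cp r θ)‖) ^ 2 :=
            pow_le_pow_left₀ h7 h5 2
        _ = 16 * ‖gen S ((r : ℂ) * Complex.exp ((θ : ℂ) * Complex.I))‖ ^ 2 := by
            rw [mul_pow]; norm_num; rfl
    have hc := cont_gen S hr0' hr1
    calc ∫ θ in α..β, ‖ser (fun n => ic S (n + 1) - ic S n) r θ‖ ^ 2
        ≤ ∫ θ in α..β, 16 * ‖gen S ((r : ℂ) * Complex.exp ((θ : ℂ) * Complex.I))‖ ^ 2 := by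
          apply intervalIntegral.integral_mono hαβ.le
          · apply Continuous.intervalIntegrable
            have := continuous_ser hr0' (summ_diff S hr0' hr1)
            fun_prop
          · apply Continuous.intervalIntegrable
            exact continuous_const.mul (hc.norm.pow 2)
          · exact hpt
      _ = 16 * mean S α β r := intervalIntegral.integral_const_mul _ _
      _ ≤ 16 * (C * Real.log (1 / (1 - r))) := mul_le_mul_of_nonneg_left hr (by norm_num)
      _ = _ := by ring

theorem dichotomy (S : Set ℕ) (h0 : 0 ∉ S) (h : ∀ n, 1 ≤ n → ic S n = ic S 1) :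
    S = ∅ ∨ S = {n | 1 ≤ n} := by
  classical
  by_cases h1 : 1 ∈ S
  · right
    ext n
    simp only [Set.mem_ofPred_eq]
    constructor
    · intro hn
      rcases Nat.eq_zero_or_pos n with rfl | h2
      · exact absurd hn h0
      · exact h2
    · intro hn
      have h2 := h n hn
      unfold ic at h2
      rw [Set.indicator_of_mem h1] at h2
      by_contra h3
      rw [Set.indicator_of_notMem h3] at h2
      exact zero_ne_one h2
  · left
    ext n
    simp only [Set.mem_empty_iff_false, iff_false]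
    intro hn
    rcases Nat.eq_zero_or_pos n with rfl | h2
    · exact h0 hn
    · have h3 := h n h2
      unfold ic at h3
      rw [Set.indicator_of_mem hn, Set.indicator_of_notMem h1] at h3
      exact one_ne_zero h3

theorem reach_inv : ∀ n, 1 ≤ n → (T n ∈ reach ↔ n ∈ reach) := by
  intro n hn
  have hT : 1 ≤ T n := by
    unfold T
    split_ifs <;> omega
  constructor
  · rintro ⟨_, k, hk⟩
    exact ⟨hn, k + 1, by rwa [Function.iterate_succ_apply]⟩
  · rintro ⟨_, k, hk⟩
    refine ⟨hT, ?_⟩
    rcases k with _ | k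
    · have h1 : n = 1 := hk
      subst h1
      exact ⟨2, by decide⟩
    · exact ⟨k, by rwa [Function.iterate_succ_apply] at hk⟩

theorem gen_all {z : ℂ} (hz : ‖z‖ < 1) : gen {n | 1 ≤ n} z = z / (1 - z) := by
  rw [gen_eq]
  have h1 : HasSum (fun n : ℕ => z ^ n) (1 - z)⁻¹ := hasSum_geometric_of_norm_lt_one hz
  have h2 : HasSum (fun n : ℕ => ic {n | 1 ≤ n} (n + 1) * z ^ (n + 1)) ((1 - z)⁻¹ * z) := by
    refine hs_congr (h1.mul_right z) (fun n => ?_)
    have : ic {n : ℕ | 1 ≤ n} (n + 1) = 1 := by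
      unfold ic
      exact Set.indicator_of_mem (show n + 1 ∈ {n : ℕ | 1 ≤ n} by simp) _
    rw [this, pow_succ, one_mul]
  have h3 := (hasSum_nat_add_iff (f := fun n : ℕ => ic {n | 1 ≤ n} n * z ^ n) 1).mp h2
  have h4 : ic {n : ℕ | 1 ≤ n} 0 = 0 := by
    unfold ic
    exact Set.indicator_of_notMem (by simp) _
  simp only [Finset.range_one, Finset.sum_singleton, h4, zero_mul, add_zero] at h3
  rw [h3.tsum_eq, div_eq_mul_inv, mul_comm]

/-- (1) Let `S` be a set of positive integers that is invariant under the Collatz map (a positive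
integer belongs to `S` if and only if its image does).  If `S` is neither empty nor the set of all
the positive integers then on every arc the quadratic mean of the generating function of `S` grows
faster than `log (1 / (1 - r))` as `r → 1`.
(2) The Collatz conjecture holds if and only if, on some arc and for some radii that tend to `1`, the
quadratic mean of the generating function of the set of the integers that reach `1` is at most a
constant times `log (1 / (1 - r))`. -/
theorem main_nat :
    (∀ S : Set ℕ, 0 ∉ S → (∀ n, 1 ≤ n → (T n ∈ S ↔ n ∈ S)) → S ≠ ∅ → S ≠ {n | 1 ≤ n} →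
      ∀ α β : ℝ, α < β →
        Tendsto (fun r : ℝ => mean S α β r / Real.log (1 / (1 - r))) (𝓝[<] (1 : ℝ)) atTop) ∧
    ((∀ n : ℕ, 1 ≤ n → ∃ j, T^[j] n = 1) ↔
      ∃ α β C : ℝ, α < β ∧
        ∃ᶠ r : ℝ in 𝓝[<] (1 : ℝ), mean reach α β r ≤ C * Real.log (1 / (1 - r))) := by
  refine ⟨fun S h0 h hne hall α β hαβ => ?_, ?_, ?_⟩
  · rw [tendsto_atTop]
    by_contra hcon
    rw [not_forall] at hcon
    obtain ⟨b, hb⟩ := hcon
    rw [not_eventually] at hb
    have h1 : ∀ᶠ r : ℝ in 𝓝[<] (1 : ℝ), 0 < r ∧ r < 1 := by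
      apply Filter.Eventually.and
      · exact nhdsWithin_le_nhds (lt_mem_nhds (by norm_num))
      · exact self_mem_nhdsWithin
    have h2 : ∃ᶠ r : ℝ in 𝓝[<] (1 : ℝ), mean S α β r ≤ b * Real.log (1 / (1 - r)) := by
      refine (hb.and_eventually h1).mono ?_
      rintro r ⟨hr, hr0, hr1⟩
      rw [not_le] at hr
      have hlog : 0 < Real.log (1 / (1 - r)) := by
        apply Real.log_pos
        rw [lt_div_iff₀ (by linarith)]
        linarith
      exact ((div_lt_iff₀ hlog).1 hr).le
    rcases dichotomy S h0 (const S h0 h hαβ h2) with h3 | h3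
    · exact hne h3
    · exact hall h3
  · intro h
    have hS : reach = {n | 1 ≤ n} := by
      ext n
      exact ⟨fun h1 => h1.1, fun h1 => ⟨h1, h n h1⟩⟩
    refine ⟨Real.pi / 2, Real.pi, Real.pi, by linarith [Real.pi_pos], ?_⟩
    apply Eventually.frequently
    have h1 : ∀ᶠ r : ℝ in 𝓝[<] (1 : ℝ), 9 / 10 < r ∧ r < 1 := by
      apply Filter.Eventually.and
      · exact nhdsWithin_le_nhds (lt_mem_nhds (by norm_num))
      · exact self_mem_nhdsWithin
    refine h1.mono ?_
    rintro r ⟨hr0, hr1⟩
    have hr0' : 0 ≤ r := by linarith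
    have hlog : 1 ≤ Real.log (1 / (1 - r)) := by
      have h10 : Real.exp 1 ≤ 1 / (1 - r) := by
        rw [le_div_iff₀ (by linarith)]
        have := Real.exp_one_lt_d9
        nlinarith
      calc (1 : ℝ) = Real.log (Real.exp 1) := (Real.log_exp 1).symm
        _ ≤ _ := Real.log_le_log (Real.exp_pos 1) h10
    have hb : mean reach (Real.pi / 2) Real.pi r ≤ ∫ θ : ℝ in (Real.pi / 2)..Real.pi, (1 : ℝ) := by
      unfold mean
      apply intervalIntegral.integral_mono_on (by linarith [Real.pi_pos])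
      · apply Continuous.intervalIntegrable
        exact (cont_gen reach hr0' hr1).norm.pow 2
      · exact intervalIntegrable_const
      · intro θ hθ
        have hz : ‖(r : ℂ) * Complex.exp ((θ : ℂ) * Complex.I)‖ = r := norm_cp hr0' θ
        rw [hS, gen_all (by rw [hz]; exact hr1), norm_div, hz]
        have hre : ((r : ℂ) * Complex.exp ((θ : ℂ) * Complex.I)).re ≤ 0 := by
          rw [Complex.re_ofReal_mul, Complex.exp_ofReal_mul_I_re]
          have := Real.cos_nonpos_of_pi_div_two_le_of_le hθ.1 (by linarith [hθ.2, Real.pi_pos])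
          nlinarith
        have h2 : 1 ≤ ‖1 - (r : ℂ) * Complex.exp ((θ : ℂ) * Complex.I)‖ := by
          refine le_trans ?_ (Complex.abs_re_le_norm _)
          rw [Complex.sub_re, Complex.one_re]
          rw [abs_of_nonneg (by linarith)]
          linarith
        have h3 : r / ‖1 - (r : ℂ) * Complex.exp ((θ : ℂ) * Complex.I)‖ ≤ 1 := by
          rw [div_le_one (by linarith)]
          linarith
        exact pow_le_one₀ (by positivity) h3
    rw [intervalIntegral.integral_const, smul_eq_mul, mul_one] at hb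
    have := Real.pi_pos
    nlinarith
  · rintro ⟨α, β, C, hαβ, H⟩ n hn
    have h1 := const reach (by rintro ⟨h, _⟩; omega) reach_inv hαβ H
    rcases dichotomy reach (by rintro ⟨h, _⟩; omega) h1 with h3 | h3
    · have : (1 : ℕ) ∈ reach := ⟨le_rfl, 0, rfl⟩
      rw [h3] at this
      exact absurd this (Set.notMem_empty _)
    · have : n ∈ reach := by rw [h3]; exact hn
      exact this.2

end Pool.Agent.H72.Arc
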